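import Pool.Agent.Q331.WPL.Defs

/-!
# WPL trees: a zigzag path with equal counters is never changed
-/

namespace Pool.Agent.Q331.WPL

open BT

/-! ### Weighted path length by recursion -/

/-- Weighted path length, by recursion; the root has depth `d`. -/
def wplAt (f : ℕ → ℕ) : ℕ → BT → ℕ
  | _, nil => 0
  | d, node l k r => wplAt f (d + 1) l + f k * (d + 1) + wplAt f (d + 1) r

theorem sum_eq_wplAt (f : ℕ → ℕ) : ∀ (T : BT) (d : ℕ), T.inorder.Pairwise (· < ·) →
    (T.inorder.map fun i => f i * (d + 1 + T.depth i)).sum = wplAt f d T
  | nil, d, _ => rfl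
  | node l k r, d, h => by
    simp only [inorder, List.pairwise_append, List.pairwise_cons, List.mem_cons] at h
    obtain ⟨hl, ⟨hkr, hr⟩, hlr⟩ := h
    have h1 := sum_eq_wplAt f l (d + 1) hl
    have h2 := sum_eq_wplAt f r (d + 1) hr
    have e1 : (l.inorder.map fun i => f i * (d + 1 + (node l k r).depth i))
        = l.inorder.map fun i => f i * (d + 1 + 1 + l.depth i) := by
      apply List.map_congr_left
      intro i hi
      have hik : i < k := hlr i hi k (Or.inl rfl)
      simp only [depth, ne_of_lt hik, hik, if_true, if_false]
      ring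
    have e2 : (r.inorder.map fun i => f i * (d + 1 + (node l k r).depth i))
        = r.inorder.map fun i => f i * (d + 1 + 1 + r.depth i) := by
      apply List.map_congr_left
      intro i hi
      have hik : k < i := hkr i hi
      simp only [depth, ne_of_gt hik, not_lt_of_gt hik, if_false]
      ring
    simp only [inorder, List.map_append, List.map_cons, List.sum_append, List.sum_cons, wplAt]
    rw [e1, e2, h1, h2]
    simp [depth]
    ring

theorem wpl_eq (f : ℕ → ℕ) (T : BT) (h : T.inorder.Pairwise (· < ·)) :
    wpl f T = wplAt f 0 T := by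
  have := sum_eq_wplAt f T 0 h
  simpa [wpl] using this

theorem inorder_rotUp (x : ℕ) : ∀ T : BT, (rotUp x T).inorder = T.inorder
  | nil => rfl
  | node l k r => by
    unfold rotUp
    split_ifs with h1 h2 h3 h4
    · rfl
    · cases l with
      | nil => rfl
      | node a y b => simp [rotR, inorder]
    · simp only [inorder, inorder_rotUp x l]
    · cases r with
      | nil => rfl
      | node a y b => simp [rotL, inorder]
    · simp only [inorder, inorder_rotUp x r]

/-! ### The zigzag path -/

/-- The zigzag path with the keys `lo, ..., lo + n - 1`; its root is `lo` if `b` is true, and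
`lo + n - 1` otherwise. -/
def zz : Bool → ℕ → ℕ → BT
  | _, _, 0 => nil
  | true, lo, n + 1 => node nil lo (zz false (lo + 1) n)
  | false, lo, n + 1 => node (zz true lo n) (lo + n) nil

/-- The keys of the zigzag path by increasing depth. -/
def zl : Bool → ℕ → ℕ → List ℕ
  | _, _, 0 => []
  | true, lo, n + 1 => lo :: zl false (lo + 1) n
  | false, lo, n + 1 => (lo + n) :: zl true lo n

theorem mem_zl : ∀ (n : ℕ) (b : Bool) (lo x : ℕ), x ∈ zl b lo n ↔ lo ≤ x ∧ x < lo + n
  | 0, b, lo, x => by
    cases b <;> simp [zl] <;> omega
  | n + 1, true, lo, x => by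
    simp only [zl, List.mem_cons, mem_zl n false (lo + 1) x]; omega
  | n + 1, false, lo, x => by
    simp only [zl, List.mem_cons, mem_zl n true lo x]; omega

theorem zl_length : ∀ (n : ℕ) (b : Bool) (lo : ℕ), (zl b lo n).length = n
  | 0, b, lo => by cases b <;> rfl
  | n + 1, true, lo => by simp [zl, zl_length n]
  | n + 1, false, lo => by simp [zl, zl_length n]

theorem zl_nodup : ∀ (n : ℕ) (b : Bool) (lo : ℕ), (zl b lo n).Nodup
  | 0, b, lo => by cases b <;> exact List.nodup_nil
  | n + 1, true, lo => by
    simp only [zl, List.nodup_cons, mem_zl]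
    exact ⟨by omega, zl_nodup n false (lo + 1)⟩
  | n + 1, false, lo => by
    simp only [zl, List.nodup_cons, mem_zl]
    exact ⟨by omega, zl_nodup n true lo⟩

theorem inorder_zz : ∀ (n : ℕ) (b : Bool) (lo : ℕ), (zz b lo n).inorder = List.range' lo n
  | 0, b, lo => by cases b <;> rfl
  | n + 1, true, lo => by
    simp only [zz, inorder, inorder_zz n false (lo + 1), List.nil_append]
    rw [List.range'_succ]
  | n + 1, false, lo => by
    simp only [zz, inorder, inorder_zz n true lo]
    rw [List.range'_concat]
    simp

/-- The sum of the access costs over all keys. -/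
theorem sum_depth_zz : ∀ (n : ℕ) (b : Bool) (lo : ℕ),
    2 * ((zl b lo n).map fun x => 1 + (zz b lo n).depth x).sum = n * (n + 1)
  | 0, b, lo => by cases b <;> simp [zl]
  | n + 1, true, lo => by
    have ih := sum_depth_zz n false (lo + 1)
    have e : ((zl false (lo + 1) n).map fun x => 1 + (zz true lo (n + 1)).depth x)
        = (zl false (lo + 1) n).map fun x => 1 + (1 + (zz false (lo + 1) n).depth x) := by
      apply List.map_congr_left
      intro x hx
      have hx' := (mem_zl _ _ _ _).1 hx
      have h1 : ¬ x = lo := by omega
      have h2 : ¬ x < lo := by omega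
      simp only [zz, depth, h1, h2, if_false]
      ring
    simp only [zl, List.map_cons, List.sum_cons]
    rw [e, List.sum_map_add]
    simp only [zz, depth, if_true, List.map_const', List.sum_replicate, zl_length, smul_eq_mul]
    nlinarith [ih]
  | n + 1, false, lo => by
    have ih := sum_depth_zz n true lo
    have e : ((zl true lo n).map fun x => 1 + (zz false lo (n + 1)).depth x)
        = (zl true lo n).map fun x => 1 + (1 + (zz true lo n).depth x) := by
      apply List.map_congr_left
      intro x hx
      have hx' := (mem_zl _ _ _ _).1 hx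
      have h1 : ¬ x = lo + n := by omega
      have h2 : x < lo + n := by omega
      simp only [zz, depth, h1, h2, if_true, if_false]
      ring
    simp only [zl, List.map_cons, List.sum_cons]
    rw [e, List.sum_map_add]
    simp only [zz, depth, if_true, List.map_const', List.sum_replicate, zl_length, smul_eq_mul]
    nlinarith [ih]

theorem depth_head (b : Bool) (lo n x : ℕ) (S : List ℕ) (h : zl b lo n = x :: S) :
    (zz b lo n).depth x = 0 := by
  cases n with
  | zero => cases b <;> simp [zl] at h
  | succ n =>
    cases b
    · simp only [zl, List.cons.injEq] at h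
      simp [zz, depth, h.1]
    · simp only [zl, List.cons.injEq] at h
      simp [zz, depth, h.1]

/-- Rotating over its parent a node with the same counter as its parent does not change the weighted
path length of a zigzag path. -/
theorem wplAt_rotUp (f : ℕ → ℕ) : ∀ (n : ℕ) (b : Bool) (lo d : ℕ) (P : List ℕ) (y x : ℕ)
    (S : List ℕ), zl b lo n = P ++ y :: x :: S → f y = f x →
    wplAt f d (rotUp x (zz b lo n)) = wplAt f d (zz b lo n)
  | 0, b, lo, d, P, y, x, S, h, hf => by
    have := congrArg List.length h
    rw [zl_length] at this
    simp at this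
  | n + 1, true, lo, d, P, y, x, S, h, hf => by
    have hx : x ∈ zl false (lo + 1) n := by
      cases P with
      | nil =>
        simp only [zl, List.nil_append, List.cons.injEq] at h
        rw [h.2]; exact List.mem_cons_self
      | cons p P =>
        simp only [zl, List.cons_append, List.cons.injEq] at h
        rw [h.2]; simp
    have hx' := (mem_zl _ _ _ _).1 hx
    have h1 : ¬ x = lo := by omega
    have h2 : ¬ x < lo := by omega
    cases P with
    | nil =>
      simp only [zl, List.nil_append, List.cons.injEq] at h
      obtain ⟨hy, h⟩ := h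
      cases n with
      | zero => simp [zl] at h
      | succ n =>
        simp only [zl, List.cons.injEq] at h
        obtain ⟨hxe, -⟩ := h
        simp only [zz, rotUp, h1, h2, if_false, root?, hxe, if_true, rotL, wplAt]
        rw [hy, ← hf]
        ring
    | cons p P =>
      simp only [zl, List.cons_append, List.cons.injEq] at h
      obtain ⟨-, h⟩ := h
      have hroot : root? (zz false (lo + 1) n) ≠ some x := by
        intro hr
        have hnd := zl_nodup n false (lo + 1)
        cases n with
        | zero => simp [zl] at h
        | succ n =>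
          simp only [zz, root?, Option.some.injEq] at hr
          rw [h] at hnd
          simp only [zl] at h
          cases P with
          | nil =>
            simp only [List.nil_append, List.cons.injEq] at h
            have : y = x := by omega
            simp [this] at hnd
          | cons p' P =>
            simp only [List.cons_append, List.cons.injEq] at h
            have : p' = x := by omega
            simp [this] at hnd
      have ih := wplAt_rotUp f n false (lo + 1) (d + 1) P y x S h hf
      simp only [zz, rotUp, h1, h2, if_false, hroot, wplAt, ih]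
  | n + 1, false, lo, d, P, y, x, S, h, hf => by
    have hx : x ∈ zl true lo n := by
      cases P with
      | nil =>
        simp only [zl, List.nil_append, List.cons.injEq] at h
        rw [h.2]; exact List.mem_cons_self
      | cons p P =>
        simp only [zl, List.cons_append, List.cons.injEq] at h
        rw [h.2]; simp
    have hx' := (mem_zl _ _ _ _).1 hx
    have h1 : ¬ x = lo + n := by omega
    have h2 : x < lo + n := by omega
    cases P with
    | nil =>
      simp only [zl, List.nil_append, List.cons.injEq] at h
      obtain ⟨hy, h⟩ := h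
      cases n with
      | zero => simp [zl] at h
      | succ n =>
        simp only [zl, List.cons.injEq] at h
        obtain ⟨hxe, -⟩ := h
        subst hxe
        have e : zz false lo (n + 1 + 1) = node (node nil lo (zz false (lo + 1) n))
            (lo + (n + 1)) nil := rfl
        have hroot : root? (node nil lo (zz false (lo + 1) n)) = some lo := rfl
        rw [e, rotUp, if_neg h1, if_pos h2, if_pos hroot]
        simp only [rotR, wplAt]
        rw [hy, hf]
        ring
    | cons p P =>
      simp only [zl, List.cons_append, List.cons.injEq] at h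
      obtain ⟨-, h⟩ := h
      have hroot : root? (zz true lo n) ≠ some x := by
        intro hr
        have hnd := zl_nodup n true lo
        cases n with
        | zero => simp [zl] at h
        | succ n =>
          simp only [zz, root?, Option.some.injEq] at hr
          rw [h] at hnd
          simp only [zl] at h
          cases P with
          | nil =>
            simp only [List.nil_append, List.cons.injEq] at h
            have : y = x := by omega
            simp [this] at hnd
          | cons p' P =>
            simp only [List.cons_append, List.cons.injEq] at h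
            have : p' = x := by omega
            simp [this] at hnd
      have ih := wplAt_rotUp f n true lo (d + 1) P y x S h hf
      simp only [zz, rotUp, h1, h2, if_false, if_true, hroot, wplAt, ih]

theorem wpl_rotUp (f : ℕ → ℕ) (n : ℕ) (b : Bool) (lo : ℕ) (P : List ℕ) (y x : ℕ) (S : List ℕ)
    (h : zl b lo n = P ++ y :: x :: S) (hf : f y = f x) :
    wpl f (rotUp x (zz b lo n)) = wpl f (zz b lo n) := by
  have hs : (zz b lo n).inorder.Pairwise (· < ·) := by
    rw [inorder_zz]; exact List.pairwise_lt_range'
  rw [wpl_eq f _ hs, wpl_eq f _ (by rw [inorder_rotUp]; exact hs)]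
  exact wplAt_rotUp f n b lo 0 P y x S h hf

/-! ### The algorithm on the zigzag path -/

/-- One access in the middle of a round does not change the tree. -/
theorem climb_zz (f : ℕ → ℕ) (n : ℕ) (b : Bool) (lo : ℕ) (P : List ℕ) (x : ℕ) (S : List ℕ)
    (h : zl b lo n = P ++ x :: S) (hf : ∀ y ∈ P, f y = f x) :
    climb f x ((zz b lo n).depth x) (zz b lo n) = (zz b lo n, 0) := by
  rcases List.eq_nil_or_concat P with hP | ⟨P', y, hP⟩
  · subst hP
    rw [depth_head b lo n x S h]
    rfl
  · have h' : zl b lo n = P' ++ y :: x :: S := by
      rw [h, hP]; simp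
    have hy : f y = f x := hf y (by rw [hP]; simp)
    have he := wpl_rotUp f n b lo P' y x S h' hy
    cases hd : (zz b lo n).depth x with
    | zero => rfl
    | succ m =>
      simp only [climb]
      rw [if_neg (by rw [he]; exact lt_irrefl _)]

theorem run_zz (n : ℕ) (b : Bool) (lo : ℕ) (c : ℕ) : ∀ (S P : List ℕ) (f : ℕ → ℕ) (ρ : List ℕ),
    zl b lo n = P ++ S → (∀ y ∈ P, f y = c + 1) → (∀ y ∈ S, f y = c) →
    ∃ g : ℕ → ℕ, (∀ y ∈ zl b lo n, g y = c + 1) ∧
      run f (zz b lo n) (S ++ ρ)
        = (S.map fun x => 1 + (zz b lo n).depth x).sum + run g (zz b lo n) ρ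
  | [], P, f, ρ, h, h1, _ => by
    refine ⟨f, ?_, by simp⟩
    intro y hy
    rw [h] at hy
    exact h1 y (by simpa using hy)
  | x :: S, P, f, ρ, h, h1, h2 => by
    have hnd := zl_nodup n b lo
    rw [h] at hnd
    have hxP : x ∉ P := fun hx => by
      have := (List.nodup_append.1 hnd).2.2 x hx x List.mem_cons_self
      exact this rfl
    have hxS : x ∉ S := by
      have := (List.nodup_append.1 hnd).2.1
      exact (List.nodup_cons.1 this).1
    have hb1 : ∀ y ∈ P, bump f x y = c + 1 := by
      intro y hy
      have : y ≠ x := fun h => hxP (h ▸ hy)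
      rw [bump, Function.update_of_ne this]; exact h1 y hy
    have hbx : bump f x x = c + 1 := by
      rw [bump, Function.update_self, h2 x List.mem_cons_self]
    have hb2 : ∀ y ∈ S, bump f x y = c := by
      intro y hy
      have : y ≠ x := fun h => hxS (h ▸ hy)
      rw [bump, Function.update_of_ne this]; exact h2 y (List.mem_cons_of_mem _ hy)
    have hcl := climb_zz (bump f x) n b lo P x S h
      (fun y hy => by rw [hb1 y hy, hbx])
    obtain ⟨g, hg1, hg2⟩ := run_zz n b lo c S (P ++ [x]) (bump f x) ρ
      (by rw [h]; simp)
      (by
        intro y hy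
        rcases List.mem_append.1 hy with hy | hy
        · exact hb1 y hy
        · rw [List.mem_singleton.1 hy]; exact hbx)
      hb2
    refine ⟨g, hg1, ?_⟩
    rw [List.cons_append, run, hcl, hg2]
    simp only [List.map_cons, List.sum_cons]
    ring

/-- `m` rounds. -/
def rounds (L : List ℕ) : ℕ → List ℕ
  | 0 => []
  | m + 1 => L ++ rounds L m

theorem rounds_length (L : List ℕ) : ∀ m, (rounds L m).length = m * L.length
  | 0 => by simp [rounds]
  | m + 1 => by
    rw [rounds, List.length_append, rounds_length L m]; ring

theorem mem_rounds {L : List ℕ} {x : ℕ} : ∀ {m : ℕ}, x ∈ rounds L m → x ∈ L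
  | 0, h => by simp [rounds] at h
  | m + 1, h => by
    rw [rounds, List.mem_append] at h
    rcases h with h | h
    · exact h
    · exact mem_rounds h

theorem run_rounds (n : ℕ) (b : Bool) (lo : ℕ) : ∀ (m c : ℕ) (f : ℕ → ℕ),
    (∀ y ∈ zl b lo n, f y = c) →
    2 * run f (zz b lo n) (rounds (zl b lo n) m) = m * (n * (n + 1))
  | 0, c, f, _ => by simp [rounds, run]
  | m + 1, c, f, h => by
    obtain ⟨g, hg1, hg2⟩ := run_zz n b lo c (zl b lo n) [] f (rounds (zl b lo n) m)
      (by simp) (by simp) h
    rw [rounds, hg2, mul_add, sum_depth_zz, run_rounds n b lo m (c + 1) g hg1]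
    ring

/-- The WPL tree algorithm pays `n (n + 1) / 2` per round, and the tree never changes. -/
theorem costWPL_rounds (n m : ℕ) :
    2 * costWPL (zz true 1 n) (rounds (zl true 1 n) m) = m * (n * (n + 1)) :=
  run_rounds n true 1 m 0 _ (fun _ _ => rfl)

theorem zz_isBST (n : ℕ) : IsBST n (zz true 1 n) := inorder_zz n true 1

/-! ### Balanced trees -/

/-- The complete binary search tree with `2 ^ h - 1` keys `lo, lo + 1, ...`. -/
def bal : ℕ → ℕ → BT
  | 0, _ => nil
  | h + 1, lo => node (bal h lo) (lo + 2 ^ h - 1) (bal h (lo + 2 ^ h))

theorem inorder_bal : ∀ (h lo : ℕ), (bal h lo).inorder = List.range' lo (2 ^ h - 1)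
  | 0, lo => rfl
  | h + 1, lo => by
    have hp : 1 ≤ 2 ^ h := Nat.one_le_two_pow
    simp only [bal, inorder, inorder_bal h]
    have e1 : 2 ^ (h + 1) - 1 = (2 ^ h - 1) + (1 + (2 ^ h - 1)) := by
      rw [pow_succ]; omega
    have e3 : lo + (2 ^ h - 1) + 1 = lo + 2 ^ h := by omega
    have e2 : List.range' lo (2 ^ (h + 1) - 1)
        = List.range' lo (2 ^ h - 1) ++ (lo + (2 ^ h - 1)) ::
          List.range' (lo + 2 ^ h) (2 ^ h - 1) := by
      rw [e1, ← List.range'_append_1, add_comm 1 (2 ^ h - 1), List.range'_succ, e3]
    rw [e2]
    have : lo + 2 ^ h - 1 = lo + (2 ^ h - 1) := by omega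
    rw [this]

theorem depth_bal : ∀ (h lo x : ℕ), lo ≤ x → x < lo + (2 ^ h - 1) → 1 + (bal h lo).depth x ≤ h
  | 0, lo, x, h1, h2 => by simp at h2; omega
  | h + 1, lo, x, h1, h2 => by
    have hp : 1 ≤ 2 ^ h := Nat.one_le_two_pow
    rw [pow_succ] at h2
    simp only [bal, depth]
    split_ifs with c1 c2
    · omega
    · have := depth_bal h lo x h1 (by omega)
      omega
    · have := depth_bal h (lo + 2 ^ h) x (by omega) (by omega)
      omega

theorem costStatic_le {S : BT} {h : ℕ} : ∀ {σ : List ℕ}, (∀ x ∈ σ, 1 + S.depth x ≤ h) →
    costStatic S σ ≤ σ.length * h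
  | [], _ => by simp [costStatic]
  | x :: σ, hx => by
    have ih := costStatic_le (S := S) (h := h) (σ := σ)
      (fun y hy => hx y (List.mem_cons_of_mem _ hy))
    have h1 := hx x List.mem_cons_self
    simp only [costStatic, List.map_cons, List.sum_cons, List.length_cons] at ih ⊢
    rw [add_mul, one_mul]
    omega

/-! ### Rotations connect all trees with the same keys -/

theorem RotStep.symm {T T' : BT} (h : RotStep T T') : RotStep T' T := by
  induction h with
  | right a b r y k => exact RotStep.left b r a k y
  | left a b l y k => exact RotStep.right l a b k y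
  | inl k r _ ih => exact RotStep.inl k r ih
  | inr l k _ ih => exact RotStep.inr l k ih

theorem Rots.trans {e e' : ℕ} {T T' T'' : BT} (h : Rots e T T') (h' : Rots e' T' T'') :
    Rots (e + e') T T'' := by
  induction h with
  | refl T => simpa using h'
  | @step e T T₁ T₂ hs _ ih =>
    have := Rots.step hs (ih h')
    rwa [add_right_comm] at this

theorem Rots.symm {e : ℕ} {T T' : BT} (h : Rots e T T') : Rots e T' T := by
  induction h with
  | refl T => exact Rots.refl T
  | @step e T T₁ T₂ hs _ ih => exact ih.trans (Rots.step hs.symm (Rots.refl _))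

theorem Rots.inl {e : ℕ} {l l' : BT} (k : ℕ) (r : BT) (h : Rots e l l') :
    Rots e (node l k r) (node l' k r) := by
  induction h with
  | refl T => exact Rots.refl _
  | step hs _ ih => exact Rots.step (RotStep.inl k r hs) ih

theorem Rots.inr {e : ℕ} {r r' : BT} (l : BT) (k : ℕ) (h : Rots e r r') :
    Rots e (node l k r) (node l k r') := by
  induction h with
  | refl T => exact Rots.refl _
  | step hs _ ih => exact Rots.step (RotStep.inr l k hs) ih

/-- The right path with given keys. -/
def spine : List ℕ → BT
  | [] => nil
  | x :: L => node nil x (spine L)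

theorem spine_merge (k : ℕ) (R : List ℕ) : ∀ L : List ℕ,
    ∃ e, Rots e (node (spine L) k (spine R)) (spine (L ++ k :: R))
  | [] => ⟨0, Rots.refl _⟩
  | a :: L => by
    obtain ⟨e, he⟩ := spine_merge k R L
    exact ⟨e + 1, Rots.step (RotStep.right nil (spine L) (spine R) a k) (Rots.inr nil a he)⟩

theorem to_spine : ∀ T : BT, ∃ e, Rots e T (spine T.inorder)
  | nil => ⟨0, Rots.refl _⟩
  | node l k r => by
    obtain ⟨e1, h1⟩ := to_spine l
    obtain ⟨e2, h2⟩ := to_spine r
    obtain ⟨e3, h3⟩ := spine_merge k r.inorder l.inorder
    exact ⟨_, ((Rots.inl k r h1).trans (Rots.inr _ k h2)).trans h3⟩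

theorem exists_rots {T T' : BT} (h : T.inorder = T'.inorder) : ∃ e, Rots e T T' := by
  obtain ⟨e1, h1⟩ := to_spine T
  obtain ⟨e2, h2⟩ := to_spine T'
  exact ⟨_, h1.trans (h ▸ h2.symm)⟩

theorem serves_static (S : BT) : ∀ σ : List ℕ, Serves S σ (costStatic S σ)
  | [] => Serves.nil S
  | x :: σ => by
    have := Serves.cons (x := x) (Rots.refl S) (serves_static S σ)
    simpa [costStatic] using this

theorem depth_le_length : ∀ (T : BT) (x : ℕ), T.depth x ≤ T.inorder.length
  | nil, x => by simp [depth]
  | node l k r, x => by
    simp only [depth, inorder, List.length_append, List.length_cons]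
    have := depth_le_length l x
    have := depth_le_length r x
    split_ifs <;> omega

/-- The offline optimum is at most the cost in a fixed tree plus a constant. -/
theorem OPT_le {T S : BT} (h : T.inorder = S.inorder) : ∃ K : ℕ, ∀ σ : List ℕ,
    OPT T σ ≤ costStatic S σ + K := by
  obtain ⟨e, he⟩ := exists_rots h
  refine ⟨1 + T.inorder.length + e, fun σ => ?_⟩
  cases σ with
  | nil => exact (Nat.sInf_le (Serves.nil T)).trans (Nat.zero_le _)
  | cons x σ =>
    have h1 := depth_le_length T x
    refine (Nat.sInf_le (Serves.cons he (serves_static S σ))).trans ?_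
    simp only [costStatic, List.map_cons, List.sum_cons]
    omega

end Pool.Agent.Q331.WPL
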