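import Mathlib

/-!
# WPL trees: definitions

Binary search trees on the keys `1, ..., n`, rotations, the WPL tree algorithm and its cost.
-/

namespace Pool.Agent.Q331.WPL

/-- Binary trees with keys at the nodes. -/
inductive BT : Type
  | nil : BT
  | node : BT → ℕ → BT → BT

namespace BT

/-- The keys in symmetric order. -/
def inorder : BT → List ℕ
  | nil => []
  | node l k r => inorder l ++ k :: inorder r

/-- The key at the root. -/
def root? : BT → Option ℕ
  | nil => none
  | node _ k _ => some k

/-- The depth of the key `x` (the number of edges of the search path from the root to `x`). -/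
def depth : BT → ℕ → ℕ
  | nil, _ => 0
  | node l k r, x => if x = k then 0 else if x < k then depth l x + 1 else depth r x + 1

/-- Right rotation at the root: the left child becomes the root. -/
def rotR : BT → BT
  | node (node a y b) k r => node a y (node b k r)
  | T => T

/-- Left rotation at the root: the right child becomes the root. -/
def rotL : BT → BT
  | node l k (node a y b) => node (node l k a) y b
  | T => T

/-- Rotate the key `x` over its parent (nothing happens if `x` is at the root). -/
def rotUp (x : ℕ) : BT → BT
  | nil => nil
  | node l k r =>
    if x = k then node l k r
    else if x < k then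
      if root? l = some x then rotR (node l k r) else node (rotUp x l) k r
    else
      if root? r = some x then rotL (node l k r) else node l k (rotUp x r)

end BT

open BT

/-- `T` is a binary search tree whose keys are `1, ..., n`. -/
def IsBST (n : ℕ) (T : BT) : Prop := T.inorder = List.range' 1 n

/-- The weighted path length of `T` for the counters `f`: the sum over the keys `i` of `T` of
`f i * (1 + depth i)`. -/
def wpl (f : ℕ → ℕ) (T : BT) : ℕ := (T.inorder.map fun i => f i * (1 + T.depth i)).sum

/-- Rotate `x` over its current parent as long as this strictly decreases the weighted path length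
of the whole tree, at most `fuel` times.  The result is the new tree and the number of rotations. -/
def climb (f : ℕ → ℕ) (x : ℕ) : ℕ → BT → BT × ℕ
  | 0, T => (T, 0)
  | fuel + 1, T =>
    if wpl f (rotUp x T) < wpl f T then
      ((climb f x fuel (rotUp x T)).1, (climb f x fuel (rotUp x T)).2 + 1)
    else (T, 0)

/-- The counters after an access to `x`. -/
def bump (f : ℕ → ℕ) (x : ℕ) : ℕ → ℕ := Function.update f x (f x + 1)

/-- The total cost of the WPL tree algorithm on a request sequence, from the tree `T` and the
counters `f`.  An access to `x` costs `1 + depth x`; then the counter of `x` is increased and `x` is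
rotated over its parent as long as this strictly decreases the weighted path length (a rotation
decreases the depth of `x` by one, hence at most `depth x` rotations), at cost one per rotation. -/
def run : (ℕ → ℕ) → BT → List ℕ → ℕ
  | _, _, [] => 0
  | f, T, x :: σ =>
    (1 + T.depth x + (climb (bump f x) x (T.depth x) T).2)
      + run (bump f x) (climb (bump f x) x (T.depth x) T).1 σ

/-- The total cost of the WPL tree algorithm on `σ` from the initial tree `T`: all counters start
at `0`. -/
def costWPL (T : BT) (σ : List ℕ) : ℕ := run (fun _ => 0) T σ

/-- The cost of serving `σ` in the fixed tree `S`. -/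
def costStatic (S : BT) (σ : List ℕ) : ℕ := (σ.map fun x => 1 + S.depth x).sum

/-- The least cost of serving `σ` in a fixed binary search tree with the keys `1, ..., n`. -/
noncomputable def optStatic (n : ℕ) (σ : List ℕ) : ℕ :=
  sInf {c | ∃ S : BT, IsBST n S ∧ costStatic S σ = c}

/-- One rotation, at any place. -/
inductive RotStep : BT → BT → Prop
  | right (a b r : BT) (y k : ℕ) : RotStep (node (node a y b) k r) (node a y (node b k r))
  | left (a b l : BT) (y k : ℕ) : RotStep (node l k (node a y b)) (node (node l k a) y b)
  | inl {l l' : BT} (k : ℕ) (r : BT) : RotStep l l' → RotStep (node l k r) (node l' k r)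
  | inr {r r' : BT} (l : BT) (k : ℕ) : RotStep r r' → RotStep (node l k r) (node l k r')

/-- `Rots e T T'`: `T` can be turned into `T'` by `e` rotations. -/
inductive Rots : ℕ → BT → BT → Prop
  | refl (T : BT) : Rots 0 T T
  | step {e : ℕ} {T T' T'' : BT} : RotStep T T' → Rots e T' T'' → Rots (e + 1) T T''

/-- `Serves T σ c`: from the tree `T`, the sequence `σ` can be served offline at total cost `c`.
An access to `x` costs the number `1 + depth x` of nodes on the path from the root to `x`, and after
the access any number `e` of rotations may be performed at cost `e`. -/
inductive Serves : BT → List ℕ → ℕ → Prop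
  | nil (T : BT) : Serves T [] 0
  | cons {T T' : BT} {x e c : ℕ} {σ : List ℕ} :
      Rots e T T' → Serves T' σ c → Serves T (x :: σ) ((1 + T.depth x + e) + c)

/-- The offline optimum: the least total cost of serving `σ` from `T`. -/
noncomputable def OPT (T : BT) (σ : List ℕ) : ℕ := sInf {c | Serves T σ c}

end Pool.Agent.Q331.WPL
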